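import Mathlib

/-!
# Finitely generated extensions of a perfect field and closed points of the affine line

Every finite extension of the field of rational functions `k(x_1, …, x_m)` over a perfect field `k` is
the residue field of a closed point of the affine line over `k(x_1, …, x_m)`.
-/

set_option autoImplicit false
set_option linter.style.haveILetI false

open Polynomial

namespace Pool.Agent.Q137.FK

variable (k : Type) [Field k]

/-- The field of rational functions in `m` variables over `k`. -/
abbrev Rat (m : ℕ) : Type := FractionRing (MvPolynomial (Fin m) k)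

/-- `L` is finitely generated of transcendence degree `m` over `k`: a finite extension of
`k(x_1, …, x_m)`. -/
def FG (m : ℕ) (L : Type) [Field L] : Prop := ∃ φ : Rat k m →+* L, φ.Finite

/-- Separable version. -/
def SFG (m : ℕ) (L : Type) [Field L] : Prop :=
  ∃ φ : Rat k m →+* L, φ.Finite ∧ @Algebra.IsSeparable (Rat k m) L _ _ φ.toAlgebra

attribute [local instance] Polynomial.algebra Polynomial.isLocalization in
lemma fracPoly (R : Type) [CommRing R] [IsDomain R] :
    ∃ e : FractionRing R[X] ≃+* FractionRing (FractionRing R)[X], ∀ x : R[X],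
      e (algebraMap R[X] (FractionRing R[X]) x) = algebraMap (FractionRing R)[X]
        (FractionRing (FractionRing R)[X]) (Polynomial.map (algebraMap R (FractionRing R)) x) := by
  let K := FractionRing R
  let T := FractionRing K[X]
  haveI : IsScalarTower R[X] K[X] T := inferInstance
  haveI h1 : IsLocalization (Submonoid.map C (nonZeroDivisors R)) K[X] :=
    Polynomial.isLocalization _ _
  have h2 : IsLocalization ((nonZeroDivisors K[X]).comap (algebraMap R[X] K[X])) T :=
    IsLocalization.localization_localization_isLocalization_of_has_all_units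
      (Submonoid.map C (nonZeroDivisors R)) (nonZeroDivisors K[X]) T
      fun x hx => hx.mem_nonZeroDivisors
  have hinj : Function.Injective (algebraMap R[X] K[X]) :=
    Polynomial.map_injective _ (IsFractionRing.injective R K)
  have h3 : (nonZeroDivisors K[X]).comap (algebraMap R[X] K[X]) = nonZeroDivisors R[X] := by
    ext x
    rw [Submonoid.mem_comap, mem_nonZeroDivisors_iff_ne_zero, mem_nonZeroDivisors_iff_ne_zero,
      Ne, Ne, map_eq_zero_iff _ hinj]
  rw [h3] at h2
  haveI : IsFractionRing R[X] T := h2
  refine ⟨IsFractionRing.ringEquivOfRingEquiv (RingEquiv.refl R[X]), fun x => ?_⟩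
  rw [IsFractionRing.ringEquivOfRingEquiv_algebraMap]
  rfl

/-- `k(x_0, …, x_n)` is the field of rational functions in one variable over `k(x_1, …, x_n)`. -/
lemma rat_succ (n : ℕ) : ∃ e : Rat k (n + 1) ≃+* FractionRing (Rat k n)[X],
    e.toRingHom.comp (algebraMap k (Rat k (n + 1))) =
      ((algebraMap (Rat k n)[X] (FractionRing (Rat k n)[X])).comp C).comp
        (algebraMap k (Rat k n)) := by
  obtain ⟨e, he⟩ := fracPoly (MvPolynomial (Fin n) k)
  refine ⟨(IsFractionRing.ringEquivOfRingEquiv
    (MvPolynomial.finSuccEquiv k n).toRingEquiv).trans e, ?_⟩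
  ext c
  have h1 : algebraMap k (Rat k (n + 1)) c = algebraMap (MvPolynomial (Fin (n + 1)) k) _
      (algebraMap k (MvPolynomial (Fin (n + 1)) k) c) := rfl
  change e (IsFractionRing.ringEquivOfRingEquiv (MvPolynomial.finSuccEquiv k n).toRingEquiv
    (algebraMap k (Rat k (n + 1)) c)) = _
  rw [h1, IsFractionRing.ringEquivOfRingEquiv_algebraMap, he]
  change algebraMap (Rat k n)[X] (FractionRing (Rat k n)[X]) (Polynomial.map _
    (MvPolynomial.finSuccEquiv k n (algebraMap k _ c))) = _
  rw [AlgEquiv.commutes]
  change algebraMap (Rat k n)[X] (FractionRing (Rat k n)[X]) (Polynomial.map _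
    (C (algebraMap k _ c))) = _
  rw [Polynomial.map_C]
  rfl

lemma rat_zero : Function.Bijective (algebraMap k (Rat k 0)) := by
  let e : MvPolynomial (Fin 0) k ≃+* k :=
    (MvPolynomial.isEmptyAlgEquiv k (Fin 0)).toRingEquiv
  let e' : k ≃+* Rat k 0 := IsFractionRing.ringEquivOfRingEquiv (K := k) (L := Rat k 0) e.symm
  have h : ∀ c, e' c = algebraMap k (Rat k 0) c := by
    intro c
    have h1 := IsFractionRing.ringEquivOfRingEquiv_algebraMap (K := k) (L := Rat k 0) e.symm c
    change e' (algebraMap k k c) = _ at h1
    have h2 : e.symm c = algebraMap k (MvPolynomial (Fin 0) k) c :=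
      (MvPolynomial.isEmptyAlgEquiv k (Fin 0)).symm.commutes c
    rw [h2] at h1
    exact h1
  have h2 : (algebraMap k (Rat k 0) : k → Rat k 0) = e' := funext fun c => (h c).symm
  rw [h2]
  exact e'.bijective

lemma trdeg_rat (m : ℕ) : Algebra.trdeg k (Rat k m) = m := by
  have h := trdeg_add_eq k (MvPolynomial (Fin m) k) (A := Rat k m)
  rw [← h, MvPolynomial.trdeg_of_isDomain]
  have h2 : Algebra.trdeg (MvPolynomial (Fin m) k) (Rat k m) = 0 := by
    haveI : Algebra.IsAlgebraic (MvPolynomial (Fin m) k) (Rat k m) :=
      IsLocalization.isAlgebraic _ (nonZeroDivisors _)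
    exact _root_.trdeg_eq_zero
  rw [h2]
  simp

/-- Finitely generated fields over `k` are separably generated. -/
theorem sfg_of_fg [PerfectField k] {m : ℕ} {L : Type} [Field L] (h : FG k m L) : SFG k m L := by
  obtain ⟨φ, hφ⟩ := h
  letI : Algebra (Rat k m) L := φ.toAlgebra
  haveI hfin : Module.Finite (Rat k m) L := hφ
  letI : Algebra k L := (φ.comp (algebraMap k (Rat k m))).toAlgebra
  haveI : IsScalarTower k (Rat k m) L := .of_algebraMap_eq' rfl
  haveI : Algebra.EssFiniteType (MvPolynomial (Fin m) k) (Rat k m) :=
    .of_isLocalization _ (nonZeroDivisors _)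
  haveI : Algebra.EssFiniteType k (Rat k m) :=
    .comp _ (MvPolynomial (Fin m) k) _
  haveI : Algebra.EssFiniteType k L := .comp _ (Rat k m) _
  obtain ⟨s, hs, hsep⟩ :=
    exists_isTranscendenceBasis_and_isSeparable_of_perfectField k L
  have hcard : s.card = m := by
    have h1 := hs.cardinalMk_eq_trdeg
    have h2 := trdeg_add_eq k (Rat k m) (A := L)
    rw [_root_.trdeg_eq_zero (R := Rat k m) (A := L), add_zero, trdeg_rat] at h2
    rw [← h2] at h1
    have h3 : Cardinal.mk s = s.card := Cardinal.mk_coe_finset
    rw [h3] at h1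
    exact_mod_cast h1
  let e : Fin m ≃ s := (finCongr hcard.symm).trans s.equivFin.symm
  have hx : AlgebraicIndependent k (fun i : Fin m => ((e i : s) : L)) :=
    hs.1.comp e e.injective
  have hr : Set.range (fun i : Fin m => ((e i : s) : L)) = (s : Set L) := by
    ext y
    constructor
    · rintro ⟨i, rfl⟩
      exact (e i).2
    · intro hy
      exact ⟨e.symm ⟨y, hy⟩, by simp⟩
  have hsep' : Algebra.IsSeparable (IntermediateField.adjoin k
      (Set.range (fun i : Fin m => ((e i : s) : L)))) L := by
    rw [hr]; exact hsep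
  let E := IntermediateField.adjoin k (Set.range (fun i : Fin m => ((e i : s) : L)))
  let a : Rat k m ≃ₐ[k] E := hx.aevalEquivField
  haveI hE : Algebra.EssFiniteType E L := Algebra.EssFiniteType.of_comp k E L
  haveI : Module.Finite E L := Algebra.finite_of_essFiniteType_of_isAlgebraic
  let ψ : Rat k m →+* L := (algebraMap E L).comp a.toRingEquiv.toRingHom
  refine ⟨ψ, ?_, ?_⟩
  · exact RingHom.Finite.comp (show (algebraMap E L).Finite from
      (RingHom.finite_algebraMap).2 inferInstance)
      (RingHom.Finite.of_surjective _ a.surjective)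
  · letI := ψ.toAlgebra
    letI : Algebra (Rat k m) E := a.toRingEquiv.toRingHom.toAlgebra
    haveI : IsScalarTower (Rat k m) E L := .of_algebraMap_eq' rfl
    haveI : Algebra.IsSeparable (Rat k m) E :=
      ⟨fun x => by
        obtain ⟨y, rfl⟩ := a.surjective x
        exact isSeparable_algebraMap (F := Rat k m) (K := E) y⟩
    exact Algebra.IsSeparable.trans (Rat k m) E L

/-- The fields `F[X]/(f)`. -/
theorem exists_adjoinRoot [PerfectField k] {m : ℕ} {L : Type} [Field L] (h : FG k m L) :
    ∃ f : (Rat k m)[X], f.Monic ∧ Irreducible f ∧ Nonempty (AdjoinRoot f ≃+* L) := by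
  obtain ⟨φ, hφ, hsep⟩ := sfg_of_fg k h
  letI : Algebra (Rat k m) L := φ.toAlgebra
  haveI hfin : Module.Finite (Rat k m) L := hφ
  haveI : Algebra.IsSeparable (Rat k m) L := hsep
  obtain ⟨θ, hθ⟩ := Field.exists_primitive_element (Rat k m) L
  have hi : IsIntegral (Rat k m) θ := .of_finite _ _
  refine ⟨minpoly (Rat k m) θ, minpoly.monic hi, minpoly.irreducible hi,
    ⟨((IntermediateField.adjoinRootEquivAdjoin (Rat k m) hi).toRingEquiv.trans ?_)⟩⟩
  exact (IntermediateField.equivOfEq hθ).toRingEquiv.trans
    (IntermediateField.topEquiv (F := Rat k m) (E := L)).toRingEquiv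

/-- The residue fields of the closed points of the affine line. -/
theorem fg_adjoinRoot {m : ℕ} (f : (Rat k m)[X]) [Fact (Irreducible f)] (hf : f.Monic) :
    FG k m (AdjoinRoot f) :=
  ⟨AdjoinRoot.of f, by
    haveI : Module.Finite (Rat k m) (AdjoinRoot f) := hf.finite_adjoinRoot
    exact RingHom.finite_algebraMap.2 inferInstance⟩

end Pool.Agent.Q137.FK
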