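import Pool.Agent.Q137.FK.Fields

/-!
# Constants and rational function fields

For a cohomology theory of fields with Milnor's exact sequence for the affine line: the classes on
`k(x_1, …, x_n)` are constant if and only if the groups of all the fields of transcendence degree less
than `n` are zero, one degree lower.
-/

set_option autoImplicit false

open Polynomial

universe w

namespace Pool.Agent.Q137.FK

/-- The closed points of the affine line over `K`: the monic irreducible polynomials. -/
def Pt (K : Type) [Field K] : Type := {f : K[X] // f.Monic ∧ Irreducible f}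

instance (K : Type) [Field K] (f : Pt K) : Fact (Irreducible f.1) := ⟨f.2.2⟩

/-- The residue field of a closed point. -/
abbrev Res {K : Type} [Field K] (f : Pt K) : Type := AdjoinRoot f.1

/-- The inclusion of `K` into `K(t)`. -/
noncomputable def toLine (K : Type) [Field K] : K →+* FractionRing K[X] :=
  (algebraMap K[X] (FractionRing K[X])).comp C

/-- Rational vector spaces `H^i(K)(j)` for all fields `K` with restriction maps. -/
structure Theory where
  /-- the groups -/
  H : ∀ (K : Type) [Field K], ℤ → ℤ → ModuleCat.{w} ℚ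
  /-- the restriction maps -/
  res : ∀ {K L : Type} [Field K] [Field L], (K →+* L) → ∀ i j : ℤ, H K i j →ₗ[ℚ] H L i j

/-- The group of the degree `(i, j)` of `K` is zero. -/
def Zero (T : Theory.{w}) (K : Type) [Field K] (i j : ℤ) : Prop := Subsingleton (T.H K i j)

/-- The groups of `K(t)`. -/
noncomputable def LineH (T : Theory.{w}) (K : Type) [Field K] (i j : ℤ) : ModuleCat.{w} ℚ :=
  T.H (FractionRing K[X]) i j

/-- The restriction from `K` to `K(t)`. -/
noncomputable def lineRes (T : Theory.{w}) (K : Type) [Field K] (i j : ℤ) :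
    T.H K i j →ₗ[ℚ] LineH T K i j :=
  T.res (toLine K) i j

/-- The groups of the residue field of a closed point. -/
noncomputable def PtH (T : Theory.{w}) {K : Type} [Field K] (f : Pt K) (i j : ℤ) :
    ModuleCat.{w} ℚ :=
  T.H (Res f) i j

/-- The group of the degree `(i, j)` of the residue field of `f` is zero. -/
def ZeroPt (T : Theory.{w}) {K : Type} [Field K] (f : Pt K) (i j : ℤ) : Prop :=
  Zero T (Res f) i j

/-- The residue maps `r f` on the classes of degree `(i + 1, j + 1)` of `K(t)`: the classes without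
residues are those which come from `K`. -/
def Exact (T : Theory.{w}) (K : Type) [Field K] (i j : ℤ)
    (r : ∀ f : Pt K, LineH T K (i + 1) (j + 1) →ₗ[ℚ] PtH T f i j) : Prop :=
  ∀ x, (∀ f, r f x = 0) ↔ ∃ y, lineRes T K (i + 1) (j + 1) y = x

/-- There are classes on `K(t)` with given residues (almost all of them zero). -/
def Onto (T : Theory.{w}) (K : Type) [Field K] (i j : ℤ)
    (r : ∀ f : Pt K, LineH T K (i + 1) (j + 1) →ₗ[ℚ] PtH T f i j) : Prop :=
  ∀ a : ∀ f : Pt K, PtH T f i j, {f | a f ≠ 0}.Finite → ∃ x, ∀ f, r f x = a f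

/-- Milnor's exact sequence `0 → H^{i+1}(K)(j+1) → H^{i+1}(K(t))(j+1) → ⊕_f H^i(K[t]/(f))(j) → 0`. -/
def Milnor (T : Theory.{w}) (K : Type) [Field K] (i j : ℤ) : Prop :=
  Function.Injective (lineRes T K (i + 1) (j + 1)) ∧
    ∃ r : ∀ f : Pt K, LineH T K (i + 1) (j + 1) →ₗ[ℚ] PtH T f i j,
      Exact T K i j r ∧ Onto T K i j r

/-- The groups of the degree `(i, j)` are zero, for all finite extensions of `k(x_1, …, x_m)`. -/
def ZeroFG (T : Theory.{w}) (k : Type) [Field k] (m : ℕ) (i j : ℤ) : Prop :=
  ∀ (L : Type) [Field L], FG k m L → Zero T L i j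

/-- All classes of the degree `(i, j)` of `k(x_1, …, x_n)` come from `k`. -/
def Constant (T : Theory.{w}) (k : Type) [Field k] (n : ℕ) (i j : ℤ) : Prop :=
  Function.Surjective (T.res (algebraMap k (Rat k n)) i j)

/-- The properties of the theory that are used: a functor, and Milnor's exact sequence for the affine
line over finitely generated extensions of `k`. -/
structure IsTheory (k : Type) [Field k] (T : Theory.{w}) : Prop where
  id : ∀ (K : Type) [Field K] (i j : ℤ) (x : T.H K i j), T.res (RingHom.id K) i j x = x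
  comp : ∀ {K L M : Type} [Field K] [Field L] [Field M] (φ : K →+* L) (ψ : L →+* M) (i j : ℤ)
    (x : T.H K i j), T.res (ψ.comp φ) i j x = T.res ψ i j (T.res φ i j x)
  milnor : ∀ (m : ℕ) (K : Type) [Field K], FG k m K → ∀ i j, Milnor T K i j

/-- The affine line over one field. -/
theorem line_iff {T : Theory.{w}} {K : Type} [Field K] {i j : ℤ} (h : Milnor T K i j) :
    Function.Surjective (lineRes T K (i + 1) (j + 1)) ↔ ∀ f : Pt K, ZeroPt T f i j := by
  classical
  obtain ⟨-, r, h1, h2⟩ := h
  constructor
  · intro h3 f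
    have h4 : ∀ a : PtH T f i j, a = 0 := by
      intro a
      obtain ⟨x, hx⟩ := h2 (Function.update (fun _ => 0) f a) ((Set.finite_singleton f).subset
        fun g hg => by
          by_contra hgf
          exact hg (Function.update_of_ne hgf _ _))
      have h5 := (h1 x).2 (h3 x) f
      rw [hx f, Function.update_self] at h5
      exact h5
    exact ⟨fun a b => (h4 a).trans (h4 b).symm⟩
  · intro h3 x
    refine (h1 x).1 fun f => ?_
    have h4 : Subsingleton (T.H (Res f) i j) := h3 f
    exact Subsingleton.elim (α := T.H (Res f) i j) _ _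

lemma fg_rat (k : Type) [Field k] (n : ℕ) : FG k n (Rat k n) :=
  ⟨RingHom.id _, RingHom.Finite.id _⟩

variable {k : Type} [Field k] {T : Theory.{w}} (h : IsTheory k T)

include h

lemma res_bijective {K L : Type} [Field K] [Field L] (e : K ≃+* L) (i j : ℤ) :
    Function.Bijective (T.res e.toRingHom i j) := by
  have h1 : ∀ x, T.res e.symm.toRingHom i j (T.res e.toRingHom i j x) = x := by
    intro x
    rw [← h.comp, show e.symm.toRingHom.comp e.toRingHom = RingHom.id K from
      RingHom.ext fun y => e.symm_apply_apply y, h.id]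
  have h2 : ∀ x, T.res e.toRingHom i j (T.res e.symm.toRingHom i j x) = x := by
    intro x
    rw [← h.comp, show e.toRingHom.comp e.symm.toRingHom = RingHom.id L from
      RingHom.ext fun y => e.apply_symm_apply y, h.id]
  exact ⟨Function.LeftInverse.injective h1, Function.RightInverse.surjective h2⟩

lemma zero_iso {K L : Type} [Field K] [Field L] (e : K ≃+* L) {i j : ℤ} (h1 : Zero T K i j) :
    Zero T L i j := by
  have h2 : Subsingleton (T.H K i j) := h1
  exact (res_bijective h e i j).2.subsingleton

lemma constant_zero (i j : ℤ) : Constant T k 0 i j := by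
  have h1 := (res_bijective h (RingEquiv.ofBijective _ (rat_zero k)) i j).2
  exact h1

lemma constant_succ (n : ℕ) (i j : ℤ) : Constant T k (n + 1) (i + 1) (j + 1) ↔
    Constant T k n (i + 1) (j + 1) ∧ Function.Surjective (lineRes T (Rat k n) (i + 1) (j + 1)) := by
  obtain ⟨e, he⟩ := rat_succ k n
  have hb := res_bijective h e (i + 1) (j + 1)
  have hinj := (h.milnor n (Rat k n) (fg_rat k n) i j).1
  have h1 : ∀ x, T.res e.toRingHom (i + 1) (j + 1)
      (T.res (algebraMap k (Rat k (n + 1))) (i + 1) (j + 1) x) =
      lineRes T (Rat k n) (i + 1) (j + 1) (T.res (algebraMap k (Rat k n)) (i + 1) (j + 1) x) := by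
    intro x
    rw [← h.comp, he]
    exact h.comp (algebraMap k (Rat k n)) (toLine (Rat k n)) _ _ x
  constructor
  · intro h2
    have h3 : ∀ z, ∃ x, lineRes T (Rat k n) (i + 1) (j + 1)
        (T.res (algebraMap k (Rat k n)) (i + 1) (j + 1) x) = z := by
      intro z
      obtain ⟨y, rfl⟩ := hb.2 z
      obtain ⟨x, rfl⟩ := h2 y
      exact ⟨x, (h1 x).symm⟩
    refine ⟨fun y => ?_, fun z => ?_⟩
    · obtain ⟨x, hx⟩ := h3 (lineRes T (Rat k n) (i + 1) (j + 1) y)
      exact ⟨x, hinj hx⟩
    · obtain ⟨x, hx⟩ := h3 z
      exact ⟨_, hx⟩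
  · rintro ⟨h2, h3⟩ y
    obtain ⟨z, hz⟩ := h3 (T.res e.toRingHom (i + 1) (j + 1) y)
    obtain ⟨x, rfl⟩ := h2 z
    refine ⟨x, hb.1 ?_⟩
    rw [h1]
    exact hz

/-- The classes of degree `(i + 1, j + 1)` of `k(x_1, …, x_n)` are constant if and only if the groups of
degree `(i, j)` are zero for all finitely generated extensions of transcendence degree less than `n`. -/
theorem constant_iff [PerfectField k] (n : ℕ) (i j : ℤ) : Constant T k n (i + 1) (j + 1) ↔
    ∀ m < n, ZeroFG T k m i j := by
  induction n with
  | zero => exact iff_of_true (constant_zero h _ _) fun m hm => absurd hm (Nat.not_lt_zero m)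
  | succ n ih =>
    rw [constant_succ h, ih, line_iff (h.milnor n _ (fg_rat k n) i j)]
    constructor
    · rintro ⟨h2, h3⟩ m hm L _ hL
      rcases Nat.lt_succ_iff_lt_or_eq.1 hm with h4 | rfl
      · exact h2 m h4 L hL
      · obtain ⟨f, hf, hirr, ⟨e'⟩⟩ := exists_adjoinRoot k hL
        have : Fact (Irreducible f) := ⟨hirr⟩
        exact zero_iso h e' (h3 ⟨f, hf, hirr⟩)
    · intro h2
      exact ⟨fun m hm L _ hL => h2 m (Nat.lt_succ_of_lt hm) L hL,
        fun f => h2 n (Nat.lt_succ_self n) (Res f) (fg_adjoinRoot k f.1 f.2.1)⟩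

end Pool.Agent.Q137.FK
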